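import Mathlib
import Pool.Agent.Q188.VG.Jen

/-!
# The height of a pair of complex polynomials
-/

set_option autoImplicit false

namespace Pool.Agent.Q188.RK

open Polynomial MeasureTheory Filter
open Pool.Agent.H261R2.CM (toC ez ev1 m1 mx1 D_circleAverage D_norm_ez)
open Pool.Agent.W242.IM (ae_eval_ne)
open Pool.Agent.Y820.LB (log_mahler integrable_log)

/-- the height of a pair -/
noncomputable def hh (P Q : ℂ[X]) : ℝ :=
  ∫ t in (0:ℝ)..1, Real.log (max ‖P.eval (ez t)‖ ‖Q.eval (ez t)‖)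

theorem cont_ez : Continuous ez := by
  unfold ez
  fun_prop

theorem norm_eval_bound (P : ℂ[X]) : ∃ C : ℝ, ∀ t : ℝ, ‖P.eval (ez t)‖ ≤ C := by
  refine ⟨∑ i ∈ Finset.range (P.natDegree + 1), ‖P.coeff i‖, fun t => ?_⟩
  rw [Polynomial.eval_eq_sum_range]
  refine (norm_sum_le _ _).trans (Finset.sum_le_sum fun i _ => ?_)
  rw [norm_mul, norm_pow, D_norm_ez, one_pow, mul_one]

theorem hh_integrable (P Q : ℂ[X]) (hP : P ≠ 0) :
    IntervalIntegrable (fun t => Real.log (max ‖P.eval (ez t)‖ ‖Q.eval (ez t)‖)) volume 0 1 := by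
  obtain ⟨C, hC⟩ := norm_eval_bound P
  obtain ⟨C', hC'⟩ := norm_eval_bound Q
  have h1 := (integrable_log P).abs.add
    (intervalIntegrable_const (a := (0:ℝ)) (b := 1) (μ := volume) (c := |Real.log (max 1 (max C C'))|))
  refine h1.mono_fun ?_ ?_
  · refine (Real.measurable_log.comp ?_).aestronglyMeasurable
    have h2 : ∀ R : ℂ[X], Measurable fun t => ‖R.eval (ez t)‖ := fun R =>
      ((R.continuous.comp cont_ez).norm).measurable
    exact (h2 P).max (h2 Q)
  · have h3 : ∀ᵐ t : ℝ, P.eval (ez t) ≠ 0 := ae_eval_ne P hP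
    refine ae_restrict_of_ae ?_
    filter_upwards [h3] with t ht
    have h4 : 0 < ‖P.eval (ez t)‖ := norm_pos_iff.mpr ht
    have h5 : Real.log ‖P.eval (ez t)‖ ≤ Real.log (max ‖P.eval (ez t)‖ ‖Q.eval (ez t)‖) :=
      Real.log_le_log h4 (le_max_left _ _)
    have h6 : Real.log (max ‖P.eval (ez t)‖ ‖Q.eval (ez t)‖) ≤ Real.log (max 1 (max C C')) :=
      Real.log_le_log (lt_max_of_lt_left h4)
        ((max_le_max (hC t) (hC' t)).trans (le_max_right _ _))
    rw [Real.norm_eq_abs, Real.norm_eq_abs]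
    refine le_trans ?_ (le_abs_self _)
    rw [abs_le]
    constructor
    · have := neg_abs_le (Real.log ‖P.eval (ez t)‖)
      have := abs_nonneg (Real.log (max 1 (max C C')))
      linarith
    · have := le_abs_self (Real.log (max 1 (max C C')))
      have := abs_nonneg (Real.log ‖P.eval (ez t)‖)
      linarith

theorem hh_le_of_pencil (P Q : ℂ[X]) (hP : P ≠ 0) (K : ℝ)
    (h0 : ∀ u : ℂ, ‖u‖ = 1 → P + C u * Q ≠ 0)
    (h : ∀ u : ℂ, ‖u‖ = 1 → Real.log (P + C u * Q).mahlerMeasure ≤ K) : hh P Q ≤ K := by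
  set f : ℂ → ℂ := fun z => Q.eval z / P.eval z with hf
  have hmer : Meromorphic f := by
    intro z
    have h1 : ∀ R : ℂ[X], MeromorphicAt (fun z => R.eval z) z := fun R =>
      (AnalyticAt.aeval_polynomial (analyticAt_id) R).meromorphicAt
    exact (h1 Q).div (h1 P)
  have h1 := congrFun (ValueDistribution.circleAverage_circleAverage_eq_proximity_top hmer) 1
  rw [ValueDistribution.proximity_top] at h1
  have h2 : Real.circleAverage (fun a => Real.circleAverage (fun z => Real.log ‖f z - a‖) 0 1) 0 1 ≤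
      K - Real.log P.mahlerMeasure := by
    refine Real.circleAverage_mono_on_of_le_circle
      (ValueDistribution.circleIntegrable_circleAverage_log_norm_sub hmer) ?_
    intro a ha
    have ha1 : ‖a‖ = 1 := by simpa using ha
    have hu : ‖-a⁻¹‖ = 1 := by rw [norm_neg, norm_inv, ha1, inv_one]
    have := Pool.Agent.Q188.VG.inner_avg P Q hP a ha1 (h0 _ hu)
    rw [hf]
    rw [this]
    have h3 := h _ hu
    linarith
  have h3 : hh P Q = Real.log P.mahlerMeasure +
      Real.circleAverage (fun z => Real.posLog ‖f z‖) 0 1 := by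
    rw [D_circleAverage (fun z => Real.posLog ‖f z‖)]
    have hint := hh_integrable P Q hP
    have hint2 := integrable_log P
    have e1 : ∫ t in (0:ℝ)..1, Real.posLog ‖f (ez t)‖ =
        ∫ t in (0:ℝ)..1, (Real.log (max ‖P.eval (ez t)‖ ‖Q.eval (ez t)‖) -
          Real.log ‖P.eval (ez t)‖) := by
      refine intervalIntegral.integral_congr_ae ?_
      filter_upwards [ae_eval_ne P hP] with t h4 _
      have h5 : 0 < ‖P.eval (ez t)‖ := norm_pos_iff.mpr h4
      have h6 : f (ez t) = Q.eval (ez t) / P.eval (ez t) := rfl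
      rw [Real.posLog_eq_log_max_one (norm_nonneg _), h6, norm_div, ← Real.log_div _ h5.ne']
      · congr 1
        rw [← div_self h5.ne', max_div_div_right h5.le]
      · exact (lt_max_of_lt_left h5).ne'
    rw [e1, intervalIntegral.integral_sub hint hint2, ← log_mahler]
    unfold hh
    ring
  rw [h3]
  have h4 : Real.circleAverage (fun z => Real.posLog ‖f z‖) 0 1 =
      Real.circleAverage (fun a => Real.circleAverage (fun z => Real.log ‖f z - a‖) 0 1) 0 1 := h1.symm
  rw [h4]
  linarith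

theorem hh_add (P Q : ℂ[X]) (hP : P ≠ 0) : hh P (P + Q) ≤ hh P Q + Real.log 2 := by
  have h1 : hh P Q + Real.log 2 =
      ∫ t in (0:ℝ)..1, (Real.log (max ‖P.eval (ez t)‖ ‖Q.eval (ez t)‖) + Real.log 2) := by
    rw [intervalIntegral.integral_add (hh_integrable P Q hP) intervalIntegrable_const]
    simp [hh]
  rw [h1]
  unfold hh
  refine intervalIntegral.integral_mono_ae zero_le_one (hh_integrable P _ hP)
    ((hh_integrable P Q hP).add intervalIntegrable_const) ?_
  filter_upwards [ae_eval_ne P hP] with t ht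
  have h4 : 0 < ‖P.eval (ez t)‖ := norm_pos_iff.mpr ht
  have h5 : 0 < max ‖P.eval (ez t)‖ ‖Q.eval (ez t)‖ := lt_max_of_lt_left h4
  rw [← Real.log_mul h5.ne' (by norm_num)]
  refine Real.log_le_log (lt_max_of_lt_left h4) (max_le ?_ ?_)
  · have := le_max_left ‖P.eval (ez t)‖ ‖Q.eval (ez t)‖
    linarith
  · rw [eval_add]
    have h6 := norm_add_le (P.eval (ez t)) (Q.eval (ez t))
    have := le_max_left ‖P.eval (ez t)‖ ‖Q.eval (ez t)‖
    have := le_max_right ‖P.eval (ez t)‖ ‖Q.eval (ez t)‖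
    linarith

theorem hh_chain (P Q R : ℂ[X]) (hP : P ≠ 0) (hQ : Q ≠ 0) :
    hh P R + Real.log Q.mahlerMeasure ≤ hh P Q + hh Q R := by
  rw [log_mahler]
  unfold hh
  rw [← intervalIntegral.integral_add (hh_integrable P R hP) (integrable_log Q),
    ← intervalIntegral.integral_add (hh_integrable P Q hP) (hh_integrable Q R hQ)]
  refine intervalIntegral.integral_mono_ae zero_le_one ((hh_integrable P R hP).add (integrable_log Q))
    ((hh_integrable P Q hP).add (hh_integrable Q R hQ)) ?_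
  filter_upwards [ae_eval_ne P hP, ae_eval_ne Q hQ] with t h1 h2
  have h3 : 0 < ‖P.eval (ez t)‖ := norm_pos_iff.mpr h1
  have h4 : 0 < ‖Q.eval (ez t)‖ := norm_pos_iff.mpr h2
  have h5 : 0 < max ‖P.eval (ez t)‖ ‖R.eval (ez t)‖ := lt_max_of_lt_left h3
  have h6 : 0 < max ‖P.eval (ez t)‖ ‖Q.eval (ez t)‖ := lt_max_of_lt_left h3
  have h7 : 0 < max ‖Q.eval (ez t)‖ ‖R.eval (ez t)‖ := lt_max_of_lt_left h4
  rw [← Real.log_mul h5.ne' h4.ne', ← Real.log_mul h6.ne' h7.ne']
  refine Real.log_le_log (by positivity) ?_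
  rcases le_total ‖P.eval (ez t)‖ ‖R.eval (ez t)‖ with h8 | h8
  · rw [max_eq_right h8, mul_comm]
    exact mul_le_mul (le_max_right _ _) (le_max_right _ _) (norm_nonneg _) h6.le
  · rw [max_eq_left h8]
    exact mul_le_mul (le_max_left _ _) (le_max_left _ _) h4.le h6.le

theorem hh_self (P : ℂ[X]) : hh P P = Real.log P.mahlerMeasure := by
  rw [log_mahler]
  unfold hh
  simp

theorem mx1_eq_hh (P Q : ℤ[X]) : mx1 P Q = hh (toC P) (toC Q) := rfl

end Pool.Agent.Q188.RK
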