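import Mathlib
import Pool.Agent.Q188.VG.Pert
import Pool.Agent.Q188.VG.Vol

/-!
# Changing a matrix by a matrix of rank one
-/

set_option autoImplicit false
set_option linter.unusedSectionVars false

namespace Pool.Agent.Q188.RK

open Matrix Polynomial
open scoped ComplexOrder
open Pool.Agent.Q188.VG

variable {k : Type} [Fintype k] [DecidableEq k]

/-- **Changing a matrix by a matrix of rank one: the new majorant.** -/
theorem step (A G H : Matrix k k ℂ) (L : ℝ) (hL : 0 ≤ L) (hG : G.PosDef) (v g : k → ℂ)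
    (hGL : ∀ x : k → ℂ, ‖star g ⬝ᵥ x‖ ^ 2 * (star v ⬝ᵥ (G *ᵥ v)).re ≤ L * (star x ⬝ᵥ (G *ᵥ x)).re)
    (h1 : (H - G).PosSemidef) (h2 : (H - Aᴴ * G * A).PosSemidef) :
    ∃ H' : Matrix k k ℂ, (H' - G).PosSemidef ∧ ‖H'.det‖ ≤ 2 * (1 + 2 * L) * ‖H.det‖ ∧
      ∀ u : ℂ, ‖u‖ = 1 → (H' - (A - u • vecMulVec v (star g))ᴴ * G *
        (A - u • vecMulVec v (star g))).PosSemidef := by
  have htriv : vecMulVec v (star g) = 0 → ∃ H' : Matrix k k ℂ, (H' - G).PosSemidef ∧
      ‖H'.det‖ ≤ 2 * (1 + 2 * L) * ‖H.det‖ ∧ ∀ u : ℂ, ‖u‖ = 1 →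
      (H' - (A - u • vecMulVec v (star g))ᴴ * G * (A - u • vecMulVec v (star g))).PosSemidef := by
    intro h0
    refine ⟨H, h1, ?_, ?_⟩
    · have := norm_nonneg H.det
      nlinarith
    · intro u _
      rw [h0, smul_zero, sub_zero]
      exact h2
  by_cases hv0 : v = 0
  · exact htriv (by rw [hv0]; ext i j; simp [vecMulVec_apply])
  by_cases hg0 : g = 0
  · exact htriv (by rw [hg0]; ext i j; simp [vecMulVec_apply])
  clear htriv
  have hH : H.PosDef := by
    have := hG.add_posSemidef h1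
    rwa [add_sub_cancel] at this
  set w := (Aᴴ * G) *ᵥ v with hw
  set γ := (star v ⬝ᵥ (G *ᵥ v)).re with hγ
  have hγc : star v ⬝ᵥ (G *ᵥ v) = (γ : ℂ) := by
    have := Complex.nonneg_iff.mp (hG.posSemidef.dotProduct_mulVec_nonneg v)
    apply Complex.ext
    · simp [hγ]
    · simp [← this.2]
  have hγ0 : 0 < γ := by
    have := hG.dotProduct_mulVec_pos hv0
    rw [hγc] at this
    exact_mod_cast this
  have hGi : IsUnit G.det := (Matrix.isUnit_iff_isUnit_det _).mp hG.isUnit
  set δ := (star g ⬝ᵥ (G⁻¹ *ᵥ g)).re with hδ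
  have hδc : star g ⬝ᵥ (G⁻¹ *ᵥ g) = (δ : ℂ) := by
    have := Complex.nonneg_iff.mp (hG.inv.posSemidef.dotProduct_mulVec_nonneg g)
    apply Complex.ext
    · simp [hδ]
    · simp [← this.2]
  have hδ0 : 0 < δ := by
    have := hG.inv.dotProduct_mulVec_pos hg0
    rw [hδc] at this
    exact_mod_cast this
  have hGG : G *ᵥ (G⁻¹ *ᵥ g) = g := by
    rw [mulVec_mulVec, Matrix.mul_nonsing_inv _ hGi, one_mulVec]
  have hγδ : γ * δ ≤ L := by
    have h3 := hGL (G⁻¹ *ᵥ g)
    have h4 : star (G⁻¹ *ᵥ g) ⬝ᵥ g = (δ : ℂ) := by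
      rw [star_mulVec, hG.inv.1.eq, ← dotProduct_mulVec, hδc]
    rw [hGG, h4, hδc, Complex.norm_real, Real.norm_of_nonneg hδ0.le, Complex.ofReal_re] at h3
    have h5 : δ * (γ * δ) ≤ δ * L := by nlinarith
    exact le_of_mul_le_mul_left h5 hδ0
  set M1 := H + ((1 / γ : ℝ) : ℂ) • vecMulVec w (star w) with hM1
  set M2 := M1 + ((2 * γ : ℝ) : ℂ) • vecMulVec g (star g) with hM2
  have vp : ∀ (c : ℝ) (p : k → ℂ), 0 ≤ c → ((c : ℂ) • vecMulVec p (star p)).PosSemidef := by
    intro c p hc
    exact (posSemidef_vecMulVec_self_star p).smul (by exact_mod_cast hc)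
  have hM1p : M1.PosDef := hH.add_posSemidef (vp _ _ (by positivity))
  have b1 : ‖M1.det‖ ≤ ‖H.det‖ * 2 := by
    rw [hM1, norm_det_update H hH _ (by positivity) w]
    refine mul_le_mul_of_nonneg_left ?_ (norm_nonneg _)
    have h3 := inv_le H G A hH hG.posSemidef h2 v
    rw [hγc, Complex.ofReal_re] at h3
    have h4 : 1 / γ * (star w ⬝ᵥ (H⁻¹ *ᵥ w)).re ≤ 1 / γ * γ :=
      mul_le_mul_of_nonneg_left h3 (by positivity)
    rw [one_div_mul_cancel hγ0.ne'] at h4
    linarith
  have b2 : ‖M2.det‖ ≤ ‖M1.det‖ * (1 + 2 * L) := by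
    rw [hM2, norm_det_update M1 hM1p _ (by positivity) g]
    refine mul_le_mul_of_nonneg_left ?_ (norm_nonneg _)
    have h5 : (M1 - (1 : Matrix k k ℂ)ᴴ * G * 1).PosSemidef := by
      rw [conjTranspose_one, one_mul, mul_one]
      have h6 : M1 - G = (H - G) + ((1 / γ : ℝ) : ℂ) • vecMulVec w (star w) := by
        rw [hM1]; abel
      rw [h6]
      exact h1.add (vp _ _ (by positivity))
    have h3 := inv_le M1 G 1 hM1p hG.posSemidef h5 (G⁻¹ *ᵥ g)
    rw [conjTranspose_one, one_mul, hGG, star_mulVec, hG.inv.1.eq, ← dotProduct_mulVec] at h3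
    have h11 : 2 * γ * (star g ⬝ᵥ (M1⁻¹ *ᵥ g)).re ≤ 2 * L := by
      have h12 : 2 * γ * (star g ⬝ᵥ (M1⁻¹ *ᵥ g)).re ≤ 2 * γ * δ :=
        mul_le_mul_of_nonneg_left h3 (by positivity)
      linarith
    linarith
  have c1 : (M2 - G).PosSemidef := by
    have h6 : M2 - G = (H - G) + ((1 / γ : ℝ) : ℂ) • vecMulVec w (star w) +
        ((2 * γ : ℝ) : ℂ) • vecMulVec g (star g) := by
      rw [hM2, hM1]; abel
    rw [h6]
    exact (h1.add (vp _ _ (by positivity))).add (vp _ _ (by positivity))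
  refine ⟨M2, c1, ?_, fun u hu => ?_⟩
  · have hL1 : 0 ≤ 1 + 2 * L := by linarith
    calc ‖M2.det‖ ≤ ‖M1.det‖ * (1 + 2 * L) := b2
      _ ≤ (‖H.det‖ * 2) * (1 + 2 * L) := mul_le_mul_of_nonneg_right b1 hL1
      _ = _ := by ring
  · set p : k → ℂ := w + ((γ : ℂ) * star u) • g with hp
    have hu2 : u * star u = 1 := by
      rw [Complex.star_def, Complex.mul_conj, Complex.normSq_eq_norm_sq, hu]; simp
    have e1 : Aᴴ * G * vecMulVec v (star g) = vecMulVec w (star g) := by
      rw [mul_vecMulVec]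
    have e2 : vecMulVec g (star v) * (G * A) = vecMulVec g (star w) := by
      rw [vecMulVec_mul, hw, star_mulVec, conjTranspose_mul, conjTranspose_conjTranspose, hG.1.eq]
    have e3 : vecMulVec g (star v) * G * vecMulVec v (star g) = (γ : ℂ) • vecMulVec g (star g) := by
      rw [vecMulVec_mul, vecMulVec_mul_vecMulVec, ← dotProduct_mulVec, hγc, vecMulVec_smul]
    have e4 : (vecMulVec v (star g))ᴴ = vecMulVec g (star v) := by
      rw [conjTranspose_vecMulVec, star_star]
    have h6 : M2 - (A - u • vecMulVec v (star g))ᴴ * G * (A - u • vecMulVec v (star g)) =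
        (H - Aᴴ * G * A) + ((1 / γ : ℝ) : ℂ) • vecMulVec p (star p) := by
      have h7 : (A - u • vecMulVec v (star g))ᴴ * G * (A - u • vecMulVec v (star g)) =
          Aᴴ * G * A - u • vecMulVec w (star g) - star u • vecMulVec g (star w) +
            (γ : ℂ) • vecMulVec g (star g) := by
        rw [conjTranspose_sub, conjTranspose_smul, e4, Matrix.sub_mul, Matrix.sub_mul,
          Matrix.mul_sub, Matrix.mul_sub, Matrix.mul_smul, e1, Matrix.smul_mul, Matrix.smul_mul,
          Matrix.mul_assoc (vecMulVec g (star v)) G A, e2, Matrix.smul_mul, Matrix.mul_smul, e3, smul_smul,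
          mul_comm (star u) u, hu2, one_smul]
        abel
      have h8 : vecMulVec p (star p) = vecMulVec w (star w) + ((γ : ℂ) * u) • vecMulVec w (star g) +
          ((γ : ℂ) * star u) • vecMulVec g (star w) + ((γ : ℂ) * (γ : ℂ)) • vecMulVec g (star g) := by
        rw [hp, star_add, star_smul, add_vecMulVec, vecMulVec_add, vecMulVec_add, vecMulVec_smul,
          smul_vecMulVec, smul_vecMulVec, vecMulVec_smul, smul_smul, star_mul', star_star]
        have h9 : star (γ : ℂ) = (γ : ℂ) := by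
          rw [Complex.star_def, Complex.conj_ofReal]
        have h10 : (γ : ℂ) * star u * ((γ : ℂ) * u) = (γ : ℂ) * (γ : ℂ) := by
          calc (γ : ℂ) * star u * ((γ : ℂ) * u) = (γ : ℂ) * (γ : ℂ) * (u * star u) := by ring
            _ = _ := by rw [hu2, mul_one]
        rw [h9, h10]
        abel
      have hγn : (γ : ℂ) ≠ 0 := by exact_mod_cast hγ0.ne'
      rw [h7, h8, hM2, hM1, smul_add, smul_add, smul_add, smul_smul, smul_smul, smul_smul]
      have h11 : (((1 / γ : ℝ) : ℂ)) * ((γ : ℂ) * u) = u := by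
        push_cast; field_simp
      have h12 : (((1 / γ : ℝ) : ℂ)) * ((γ : ℂ) * star u) = star u := by
        push_cast; field_simp
      have h13 : (((1 / γ : ℝ) : ℂ)) * ((γ : ℂ) * (γ : ℂ)) = (γ : ℂ) := by
        push_cast; field_simp
      rw [h11, h12, h13]
      have h14 : (((2 * γ : ℝ) : ℂ)) • vecMulVec g (star g) =
          (γ : ℂ) • vecMulVec g (star g) + (γ : ℂ) • vecMulVec g (star g) := by
        rw [← add_smul]; congr 1; push_cast; ring
      rw [h14]
      abel
    rw [h6]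
    exact h2.add (vp _ _ (by positivity))

/-- the determinant of a matrix changed by a matrix of rank one -/
theorem det_rank_one (M : Matrix k k ℂ) (hM : IsUnit M.det) (v g : k → ℂ) (u : ℂ) :
    (M + u • vecMulVec v g).det = M.det + u * ((M + vecMulVec v g).det - M.det) := by
  have key : ∀ u : ℂ, (M + u • vecMulVec v g).det =
      M.det + u * (M.det * (replicateRow Unit g * M⁻¹ * replicateCol Unit v).det) := by
    intro u
    have h1 : u • vecMulVec v g = replicateCol Unit (u • v) * replicateRow Unit g := by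
      rw [← vecMulVec_eq]
      ext i j
      simp [vecMulVec_apply, mul_assoc]
    rw [h1, det_add_replicateCol_mul_replicateRow hM]
    have h2 : (1 + replicateRow Unit g * M⁻¹ * replicateCol Unit (u • v) : Matrix Unit Unit ℂ).det =
        1 + u * (replicateRow Unit g * M⁻¹ * replicateCol Unit v).det := by
      rw [Matrix.det_unique, Matrix.det_unique]
      rw [Matrix.add_apply, Matrix.one_apply_eq, replicateCol_smul, Matrix.mul_smul, Matrix.smul_apply,
        smul_eq_mul]
    rw [h2]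
    ring
  have h1 := key u
  have h2 := key 1
  rw [one_smul, one_mul] at h2
  rw [h1, h2]
  ring

theorem charpoly_pencil (A : Matrix k k ℂ) (v g : k → ℂ) (u : ℂ) :
    (A - u • vecMulVec v g).charpoly =
      A.charpoly + C u * ((A - vecMulVec v g).charpoly - A.charpoly) := by
  refine Polynomial.eq_of_infinite_eval_eq _ _ ?_
  have hne : A.charpoly ≠ 0 := (Matrix.charpoly_monic A).ne_zero
  have hinf : {z : ℂ | A.charpoly.eval z = 0}ᶜ.Infinite :=
    Set.Finite.infinite_compl (Polynomial.finite_setOfPred_isRoot hne)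
  refine hinf.mono fun z hz => ?_
  have hz' : A.charpoly.eval z ≠ 0 := hz
  have e : ∀ B : Matrix k k ℂ, B.charpoly.eval z = (z • (1 : Matrix k k ℂ) - B).det := by
    intro B
    rw [Matrix.eval_charpoly, Matrix.scalar_apply, ← Matrix.smul_one_eq_diagonal]
  show eval z _ = eval z _
  rw [eval_add, eval_mul, eval_C, eval_sub, e, e, e]
  rw [e] at hz'
  have h1 := det_rank_one (z • (1 : Matrix k k ℂ) - A) (isUnit_iff_ne_zero.mpr hz') v g u
  have h2 : ∀ c : ℂ, z • (1 : Matrix k k ℂ) - (A - c • vecMulVec v g) =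
      z • (1 : Matrix k k ℂ) - A + c • vecMulVec v g := fun c => by abel
  have h3 := h2 1
  rw [one_smul] at h3
  rw [h2, h3, h1]

end Pool.Agent.Q188.RK
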