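import Mathlib
import Pool.Agent.Q188.RK.Step
import Pool.Agent.Q188.RK.Ht

/-!
# The height of the pair of the characteristic polynomials of `A` and `A - D`, `D` of bounded rank
-/

set_option autoImplicit false
set_option linter.unusedSectionVars false

namespace Pool.Agent.Q188.RK

open Matrix Polynomial
open scoped ComplexOrder
open Pool.Agent.Q188.VG

variable {n : ℕ}

theorem log_bound (x K : ℝ) (hx : 0 < x) (h : x ^ 2 ≤ K) : Real.log x ≤ Real.log (max 1 K) / 2 := by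
  have h1 : 2 * Real.log x = Real.log (x ^ 2) := by rw [Real.log_pow]; norm_num
  have h2 : Real.log (x ^ 2) ≤ Real.log (max 1 K) :=
    Real.log_le_log (by positivity) (h.trans (le_max_right _ _))
  linarith

theorem mahler_bound (A G H : Matrix (Fin n) (Fin n) ℂ) (K : ℝ) (hG : G.PosDef)
    (h1 : (H - G).PosSemidef) (h2 : (H - Aᴴ * G * A).PosSemidef) (hK : ‖H.det‖ ≤ K * ‖G.det‖) :
    Real.log A.charpoly.mahlerMeasure ≤ Real.log (max 1 K) / 2 := by
  have h3 := key _ (Fin n) rfl A G H hG h1 h2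
  have hG0 : 0 < ‖G.det‖ := norm_pos_iff.mpr (hG.det_pos.ne')
  exact log_bound _ _ (mahlerMeasure_pos_of_ne_zero (Matrix.charpoly_monic _).ne_zero)
    (le_of_mul_le_mul_right (h3.trans hK) hG0)

theorem log_mahler_nonneg (A : Matrix (Fin n) (Fin n) ℂ) : 0 ≤ Real.log A.charpoly.mahlerMeasure := by
  refine Real.log_nonneg (one_le_mahlerMeasure_of_one_le_norm_leadingCoeff ?_)
  rw [(Matrix.charpoly_monic A).leadingCoeff, norm_one]

/-- one step -/
theorem one_step (A G H : Matrix (Fin n) (Fin n) ℂ) (L K : ℝ) (hL : 0 ≤ L) (hG : G.PosDef)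
    (v g : Fin n → ℂ)
    (hGL : ∀ x : Fin n → ℂ, ‖star g ⬝ᵥ x‖ ^ 2 * (star v ⬝ᵥ (G *ᵥ v)).re ≤
      L * (star x ⬝ᵥ (G *ᵥ x)).re)
    (h1 : (H - G).PosSemidef) (h2 : (H - Aᴴ * G * A).PosSemidef) (hK : ‖H.det‖ ≤ K * ‖G.det‖) :
    (∃ H' : Matrix (Fin n) (Fin n) ℂ, (H' - G).PosSemidef ∧
      ‖H'.det‖ ≤ (2 * (1 + 2 * L) * K) * ‖G.det‖ ∧
      (H' - (A - vecMulVec v (star g))ᴴ * G * (A - vecMulVec v (star g))).PosSemidef) ∧
    hh A.charpoly (A - vecMulVec v (star g)).charpoly ≤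
      Real.log (max 1 (2 * (1 + 2 * L) * K)) / 2 + Real.log 2 := by
  obtain ⟨H', h3, h4, h5⟩ := step A G H L hL hG v g hGL h1 h2
  have h6 : ‖H'.det‖ ≤ (2 * (1 + 2 * L) * K) * ‖G.det‖ := by
    have : 0 ≤ 2 * (1 + 2 * L) := by linarith
    calc ‖H'.det‖ ≤ 2 * (1 + 2 * L) * ‖H.det‖ := h4
      _ ≤ 2 * (1 + 2 * L) * (K * ‖G.det‖) := mul_le_mul_of_nonneg_left hK this
      _ = _ := by ring
  refine ⟨⟨H', h3, h6, ?_⟩, ?_⟩
  · have := h5 1 norm_one
    rwa [one_smul] at this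
  · have hne : A.charpoly ≠ 0 := (Matrix.charpoly_monic A).ne_zero
    have h7 : hh A.charpoly ((A - vecMulVec v (star g)).charpoly - A.charpoly) ≤
        Real.log (max 1 (2 * (1 + 2 * L) * K)) / 2 := by
      refine hh_le_of_pencil _ _ hne _ ?_ ?_
      · intro u _
        rw [← charpoly_pencil]
        exact (Matrix.charpoly_monic _).ne_zero
      · intro u hu
        rw [← charpoly_pencil]
        exact mahler_bound _ G H' _ hG h3 (h5 u hu) h6
    have h8 := hh_add A.charpoly ((A - vecMulVec v (star g)).charpoly - A.charpoly) hne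
    rw [add_sub_cancel] at h8
    linarith

/-- **Bounded rank, with a decomposition.** -/
theorem height_sum (L : ℝ) (hL : 0 ≤ L) : ∀ (s : ℕ) (K : ℝ), ∃ C : ℝ, ∀ (n r : ℕ)
    (A G H : Matrix (Fin n) (Fin n) ℂ) (v g : Fin r → Fin n → ℂ), r ≤ s → G.PosDef →
    (∀ j, ∀ x : Fin n → ℂ, ‖star (g j) ⬝ᵥ x‖ ^ 2 * (star (v j) ⬝ᵥ (G *ᵥ (v j))).re ≤
      L * (star x ⬝ᵥ (G *ᵥ x)).re) →
    (H - G).PosSemidef → (H - Aᴴ * G * A).PosSemidef → ‖H.det‖ ≤ K * ‖G.det‖ →
    hh A.charpoly (A - ∑ j, vecMulVec (v j) (star (g j))).charpoly ≤ C := by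
  intro s
  induction s with
  | zero =>
    intro K
    refine ⟨Real.log (max 1 K) / 2, ?_⟩
    intro n r A G H v g hr hG _ h1 h2 hK
    obtain rfl : r = 0 := by omega
    rw [Finset.univ_eq_empty, Finset.sum_empty, sub_zero, hh_self]
    exact mahler_bound A G H K hG h1 h2 hK
  | succ s ih =>
    intro K
    obtain ⟨C, hC⟩ := ih (2 * (1 + 2 * L) * K)
    refine ⟨max (Real.log (max 1 K) / 2)
      (Real.log (max 1 (2 * (1 + 2 * L) * K)) / 2 + Real.log 2 + C), ?_⟩
    intro n r A G H v g hr hG hb h1 h2 hK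
    cases r with
    | zero =>
      rw [Finset.univ_eq_empty, Finset.sum_empty, sub_zero, hh_self]
      exact (mahler_bound A G H K hG h1 h2 hK).trans (le_max_left _ _)
    | succ r =>
      refine le_trans ?_ (le_max_right _ _)
      obtain ⟨⟨H', h3, h4, h5⟩, h6⟩ := one_step A G H L K hL hG (v 0) (g 0) (hb 0) h1 h2 hK
      have h7 := hC n r (A - vecMulVec (v 0) (star (g 0))) G H' (fun j => v j.succ) (fun j => g j.succ)
        (by omega) hG (fun j => hb j.succ) h3 h5 h4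
      have h8 : A - ∑ j, vecMulVec (v j) (star (g j)) = A - vecMulVec (v 0) (star (g 0)) -
          ∑ j : Fin r, vecMulVec (v j.succ) (star (g j.succ)) := by
        rw [Fin.sum_univ_succ]
        abel
      rw [h8]
      have h9 := hh_chain A.charpoly (A - vecMulVec (v 0) (star (g 0))).charpoly
        (A - vecMulVec (v 0) (star (g 0)) -
          ∑ j : Fin r, vecMulVec (v j.succ) (star (g j.succ))).charpoly
        (Matrix.charpoly_monic _).ne_zero (Matrix.charpoly_monic _).ne_zero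
      have h10 := log_mahler_nonneg (A - vecMulVec (v 0) (star (g 0)))
      linarith

end Pool.Agent.Q188.RK
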