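import Mathlib
import Pool.Agent.Q188.RK.Chain

/-!
# Matrices of bounded rank as sums of matrices of rank one
-/

set_option autoImplicit false
set_option linter.unusedSectionVars false

namespace Pool.Agent.Q188.RK

open Matrix Polynomial
open scoped ComplexOrder
open Pool.Agent.Q188.VG

variable {n : ℕ}

theorem dot_self_eq (x : Fin n → ℂ) : (star x ⬝ᵥ x).re = ‖WithLp.toLp 2 x‖ ^ 2 := by
  rw [EuclideanSpace.norm_sq_eq, dotProduct, Complex.re_sum]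
  refine Finset.sum_congr rfl fun i _ => ?_
  rw [Pi.star_apply, Complex.star_def, ← Complex.normSq_eq_conj_mul_self, Complex.ofReal_re,
    Complex.normSq_eq_norm_sq]

/-- the case of the standard inner product -/
theorem dec_std (E : Matrix (Fin n) (Fin n) ℂ) (s : ℕ) (hs : E.rank ≤ s) :
    ∃ (r : ℕ) (y : Fin r → Fin n → ℂ), r ≤ s ∧ (∀ j, (star (y j) ⬝ᵥ (y j)).re = 1) ∧
      (∀ z : Fin n → ℂ, E *ᵥ z = ∑ j, (star (y j) ⬝ᵥ (E *ᵥ z)) • y j) := by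
  set S : Submodule ℂ (EuclideanSpace ℂ (Fin n)) := LinearMap.range (Matrix.toEuclideanLin E) with hS
  have hfr : Module.finrank ℂ S = E.rank := by
    rw [Matrix.rank_eq_finrank_range_toLin E (EuclideanSpace.basisFun (Fin n) ℂ).toBasis
      (EuclideanSpace.basisFun (Fin n) ℂ).toBasis]
    rw [hS, Matrix.toEuclideanLin_eq_toLin_orthonormal]
  set b := stdOrthonormalBasis ℂ S with hb
  refine ⟨Module.finrank ℂ S, fun j => WithLp.ofLp (b j : EuclideanSpace ℂ (Fin n)), by omega, ?_, ?_⟩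
  · intro j
    rw [dot_self_eq, WithLp.toLp_ofLp]
    have h1 : ‖(b j : EuclideanSpace ℂ (Fin n))‖ = 1 := by
      have := b.orthonormal.1 j
      exact this
    rw [h1, one_pow]
  · intro z
    have hz : Matrix.toEuclideanLin E (WithLp.toLp 2 z) ∈ S := ⟨_, rfl⟩
    have h1 := b.sum_repr' ⟨_, hz⟩
    have h2 := congrArg (fun w : S => WithLp.ofLp (w : EuclideanSpace ℂ (Fin n))) h1
    simp only [Submodule.coe_sum, Submodule.coe_smul, WithLp.ofLp_sum, WithLp.ofLp_smul] at h2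
    have h3 : WithLp.ofLp ((Matrix.toEuclideanLin E) (WithLp.toLp 2 z)) = E *ᵥ z := rfl
    refine (h3.symm.trans h2.symm).trans ?_
    refine Finset.sum_congr rfl fun j _ => ?_
    congr 1
    rw [Submodule.coe_inner, EuclideanSpace.inner_eq_star_dotProduct, dotProduct_comm]
    rfl

theorem dec (D G : Matrix (Fin n) (Fin n) ℂ) (hG : G.PosDef) (s : ℕ) (hs : D.rank ≤ s) (L : ℝ)
    (hL : ∀ x : Fin n → ℂ, (star (D *ᵥ x) ⬝ᵥ (G *ᵥ (D *ᵥ x))).re ≤ L * (star x ⬝ᵥ (G *ᵥ x)).re) :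
    ∃ (r : ℕ) (v g : Fin r → Fin n → ℂ), r ≤ s ∧ D = ∑ j, vecMulVec (v j) (star (g j)) ∧
      ∀ j, ∀ x : Fin n → ℂ, ‖star (g j) ⬝ᵥ x‖ ^ 2 * (star (v j) ⬝ᵥ (G *ᵥ (v j))).re ≤
        L * (star x ⬝ᵥ (G *ᵥ x)).re := by
  obtain ⟨V, hV, h1⟩ := normalise G hG
  have hV1 : V⁻¹ * V = 1 := Matrix.nonsing_inv_mul _ hV
  have hV2 : V * V⁻¹ = 1 := Matrix.mul_nonsing_inv _ hV
  have hGV : G = (V⁻¹)ᴴ * V⁻¹ := by
    have h2 : (V⁻¹)ᴴ * Vᴴ = 1 := by rw [← conjTranspose_mul, hV2, conjTranspose_one]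
    calc G = ((V⁻¹)ᴴ * Vᴴ) * G * (V * V⁻¹) := by rw [h2, hV2, Matrix.one_mul, Matrix.mul_one]
      _ = (V⁻¹)ᴴ * (Vᴴ * G * V) * V⁻¹ := by simp only [Matrix.mul_assoc]
      _ = _ := by rw [h1, Matrix.mul_one]
  have hnorm : ∀ x : Fin n → ℂ, star x ⬝ᵥ (G *ᵥ x) = star (V⁻¹ *ᵥ x) ⬝ᵥ (V⁻¹ *ᵥ x) := by
    intro x
    have := conj_form V⁻¹ 1 x
    rw [Matrix.mul_one, one_mulVec] at this
    rw [hGV]
    exact this
  have hrk : (V⁻¹ * D).rank ≤ s := (Matrix.rank_mul_le_right _ _).trans hs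
  obtain ⟨r, y, hr, hy1, hy2⟩ := dec_std (V⁻¹ * D) s hrk
  refine ⟨r, fun j => V *ᵥ y j, fun j => (V⁻¹ * D)ᴴ *ᵥ y j, hr, ?_, ?_⟩
  · refine Matrix.ext_of_mulVec_single fun i => ?_
    set z : Fin n → ℂ := Pi.single i 1 with hz
    have h2 := congrArg (fun w => V *ᵥ w) (hy2 z)
    rw [mulVec_mulVec, ← Matrix.mul_assoc, hV2, Matrix.one_mul] at h2
    rw [h2, Matrix.sum_mulVec, Matrix.mulVec_sum]
    refine Finset.sum_congr rfl fun j _ => ?_
    rw [mulVec_smul, vecMulVec_mulVec, star_mulVec, conjTranspose_conjTranspose, ← dotProduct_mulVec,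
      op_smul_eq_smul]
  · intro j x
    have h2 : star (V *ᵥ y j) ⬝ᵥ (G *ᵥ (V *ᵥ y j)) = star (y j) ⬝ᵥ y j := by
      rw [hnorm, mulVec_mulVec, hV1, one_mulVec]
    rw [h2, hy1, mul_one, star_mulVec, conjTranspose_conjTranspose, ← dotProduct_mulVec]
    refine le_trans ?_ (hL x)
    rw [hnorm, mulVec_mulVec]
    set w := (V⁻¹ * D) *ᵥ x with hw
    rw [dot_self_eq]
    have h3 : star (y j) ⬝ᵥ w = inner ℂ (WithLp.toLp 2 (y j)) (WithLp.toLp 2 w) := by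
      rw [EuclideanSpace.inner_eq_star_dotProduct, dotProduct_comm]
    rw [h3]
    have h4 := norm_inner_le_norm (𝕜 := ℂ) (WithLp.toLp 2 (y j)) (WithLp.toLp 2 w)
    have h5 : ‖WithLp.toLp 2 (y j)‖ = 1 := by
      have := hy1 j
      rw [dot_self_eq] at this
      have h6 := norm_nonneg (WithLp.toLp 2 (y j))
      nlinarith
    rw [h5, one_mul] at h4
    exact pow_le_pow_left₀ (norm_nonneg _) h4 2

/-- **The height bound.** -/
theorem height_bound (L K : ℝ) (s : ℕ) : ∃ C : ℝ, ∀ (n : ℕ) (A D G : Matrix (Fin n) (Fin n) ℂ),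
    G.PosDef →
    (∀ (k : ℕ) (X : Matrix (Fin n) (Fin k) ℂ),
      ((A * X)ᴴ * G * (A * X)).det.re ≤ K * (Xᴴ * G * X).det.re) →
    D.rank ≤ s →
    (∀ x : Fin n → ℂ, (star (D *ᵥ x) ⬝ᵥ (G *ᵥ (D *ᵥ x))).re ≤ L * (star x ⬝ᵥ (G *ᵥ x)).re) →
    hh A.charpoly (A - D).charpoly ≤ C := by
  obtain ⟨C, hC⟩ := height_sum (max 0 L) (le_max_left _ _) s K
  refine ⟨C, ?_⟩
  intro n A D G hG hV hs hL
  obtain ⟨H, h1, h2, h3⟩ := exists_majorant A G hG K hV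
  have hL' : ∀ x : Fin n → ℂ, (star (D *ᵥ x) ⬝ᵥ (G *ᵥ (D *ᵥ x))).re ≤
      max 0 L * (star x ⬝ᵥ (G *ᵥ x)).re := by
    intro x
    refine (hL x).trans (mul_le_mul_of_nonneg_right (le_max_right _ _) ?_)
    exact (Complex.nonneg_iff.mp (hG.posSemidef.dotProduct_mulVec_nonneg x)).1
  obtain ⟨r, v, g, hr, hD, hb⟩ := dec D G hG s hs _ hL'
  rw [hD]
  exact hC n r A G H v g hr hG hb h1 h2 h3

end Pool.Agent.Q188.RK
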