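import Mathlib
import Pool.Agent.Q188.RK.Dec
import Pool.Agent.Q188.VG.Main
import Pool.Agent.W242.IM.Final2

/-!
# Integer matrices that differ by a matrix of bounded rank and norm
-/

set_option autoImplicit false
set_option linter.unusedSectionVars false

namespace Pool.Agent.Q188.RK

open Matrix Polynomial
open scoped ComplexOrder
open Pool.Agent.H261R2.CM (toC ez ev1 m1 mx1 LL D_toC_ne)
open Pool.Agent.Q188.VG
open Pool.Agent.Y820.LB (m1_cases one_le_m1)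

/-- an integer matrix as a complex matrix -/
noncomputable abbrev cx {n : ℕ} (A : Matrix (Fin n) (Fin n) ℤ) : Matrix (Fin n) (Fin n) ℂ :=
  A.map (Int.castRingHom ℂ)

theorem toC_charpoly {n : ℕ} (A : Matrix (Fin n) (Fin n) ℤ) : toC A.charpoly = (cx A).charpoly := by
  unfold toC
  rw [Matrix.charpoly_map]

/-- The square of the `k`-dimensional volume. -/
def sqVol {n k : ℕ} (G : Matrix (Fin n) (Fin n) ℂ) (X : Matrix (Fin n) (Fin k) ℂ) : ℝ :=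
  (Xᴴ * G * X).det.re

/-- growth of volumes in one step -/
def VolGrowth (K : ℝ) {n : ℕ} (A : Matrix (Fin n) (Fin n) ℤ) (G : Matrix (Fin n) (Fin n) ℂ) : Prop :=
  ∀ (k : ℕ) (X : Matrix (Fin n) (Fin k) ℂ), sqVol G (cx A * X) ≤ K * sqVol G X

/-- norm -/
def NormLe (L : ℝ) {n : ℕ} (D : Matrix (Fin n) (Fin n) ℤ) (G : Matrix (Fin n) (Fin n) ℂ) : Prop :=
  ∀ x : Fin n → ℂ, (star (cx D *ᵥ x) ⬝ᵥ (G *ᵥ (cx D *ᵥ x))).re ≤ L * (star x ⬝ᵥ (G *ᵥ x)).re

theorem rank_neg' {n : ℕ} (D : Matrix (Fin n) (Fin n) ℂ) : (-D).rank = D.rank := by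
  have h1 : (-D).rank ≤ D.rank := by
    have := Matrix.rank_mul_le_right (-1 : Matrix (Fin n) (Fin n) ℂ) D
    rwa [neg_mul, one_mul] at this
  have h2 : D.rank ≤ (-D).rank := by
    have := Matrix.rank_mul_le_right (-1 : Matrix (Fin n) (Fin n) ℂ) (-D)
    rwa [neg_mul, one_mul, neg_neg] at this
  omega

theorem pair_bound (L K : ℝ) (s : ℕ) : ∃ C : ℝ, ∀ (n : ℕ) (A D : Matrix (Fin n) (Fin n) ℤ)
    (G : Matrix (Fin n) (Fin n) ℂ), G.PosDef → VolGrowth K A G → (cx D).rank ≤ s → NormLe L D G →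
    mx1 A.charpoly (A + D).charpoly ≤ C ∧ mx1 (A + D).charpoly A.charpoly ≤ C := by
  obtain ⟨C, hC⟩ := height_bound L K s
  refine ⟨C, ?_⟩
  intro n A D G hG hV hs hL
  have h1 := hC n (cx A) (-cx D) G hG hV (by rw [rank_neg']; exact hs) (by
    intro x
    have := hL x
    rw [Matrix.neg_mulVec, mulVec_neg, star_neg, neg_dotProduct, dotProduct_neg, neg_neg]
    exact this)
  have h2 : cx A - -cx D = cx (A + D) := by
    rw [sub_neg_eq_add]
    unfold cx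
    ext i j
    simp
  rw [h2, ← toC_charpoly, ← toC_charpoly, ← mx1_eq_hh] at h1
  refine ⟨h1, ?_⟩
  have h3 : mx1 (A + D).charpoly A.charpoly = mx1 A.charpoly (A + D).charpoly := by
    unfold mx1
    refine intervalIntegral.integral_congr fun t _ => ?_
    exact congrArg Real.log (max_comm _ _)
  rw [h3]
  exact h1

/-- the gap -/
theorem rank_gap (L K : ℝ) (s : ℕ) : ∃ c : ℝ, 1 < c ∧ c ≤ 2 ∧ ∀ (n : ℕ)
    (A D : Matrix (Fin n) (Fin n) ℤ) (G : Matrix (Fin n) (Fin n) ℂ), G.PosDef → VolGrowth K A G →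
    (cx D).rank ≤ s → NormLe L D G → ∀ (z : ℂ) (r : ℕ), 1 < ‖z‖ →
    ((X - C z) ^ r ∣ toC A.charpoly → ¬ (X - C z) ^ r ∣ toC (A + D).charpoly → c ≤ m1 A.charpoly) ∧
    ((X - C z) ^ r ∣ toC (A + D).charpoly → ¬ (X - C z) ^ r ∣ toC A.charpoly →
      c ≤ m1 (A + D).charpoly) := by
  obtain ⟨C, hC⟩ := pair_bound L K s
  obtain ⟨c, hc, hc2, h⟩ := pair_gap' C
  refine ⟨c, hc, hc2, ?_⟩
  intro n A D G hG hV hs hL z r hz
  obtain ⟨h1, h2⟩ := hC n A D G hG hV hs hL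
  exact ⟨h _ _ (Matrix.charpoly_monic _).ne_zero h1 z r hz,
    h _ _ (Matrix.charpoly_monic _).ne_zero h2 z r hz⟩

theorem no_root_of_one (P : ℤ[X]) (hP : P.Monic) (h : m1 P = 1) (z : ℂ) (hz : 1 < ‖z‖) :
    ¬ (X - C z) ^ 1 ∣ toC P := by
  rw [pow_one]
  intro h1
  have h2 := Pool.Agent.Y820.LB.m1_gt_of_root P hP.ne_zero z (dvd_iff_isRoot.mp h1) hz
  rw [h] at h2
  exact lt_irrefl _ h2

/-- zero entropy plus a matrix of bounded rank -/
theorem gap_of_one (L K : ℝ) (s : ℕ) : ∃ c : ℝ, 1 < c ∧ c ≤ 2 ∧ ∀ (n : ℕ)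
    (A D : Matrix (Fin n) (Fin n) ℤ) (G : Matrix (Fin n) (Fin n) ℂ), G.PosDef → VolGrowth K A G →
    (cx D).rank ≤ s → NormLe L D G →
    (∀ (z : ℂ) (r : ℕ), 1 < ‖z‖ →
      ((X - C z) ^ r ∣ toC A.charpoly → ¬ (X - C z) ^ r ∣ toC (A + D).charpoly → c ≤ m1 A.charpoly) ∧
      ((X - C z) ^ r ∣ toC (A + D).charpoly → ¬ (X - C z) ^ r ∣ toC A.charpoly →
        c ≤ m1 (A + D).charpoly)) ∧
    (m1 A.charpoly = 1 → m1 (A + D).charpoly = 1 ∨ c ≤ m1 (A + D).charpoly) ∧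
    (m1 (A + D).charpoly = 1 → m1 A.charpoly = 1 ∨ c ≤ m1 A.charpoly) := by
  obtain ⟨c, hc, hc2, h⟩ := rank_gap L K s
  refine ⟨c, hc, hc2, ?_⟩
  intro n A D G hG hV hs hL
  have h0 := h n A D G hG hV hs hL
  have aux : ∀ P : ℤ[X], P.Monic → m1 P ≠ 1 → (∀ z : ℂ, (toC P).eval z = 0 → 1 < ‖z‖ → c ≤ m1 P) →
      c ≤ m1 P := by
    intro P hP h1 h2
    rcases m1_cases P hP.ne_zero h1 with h6 | ⟨z, hz, hz1⟩
    · exact hc2.trans h6
    · exact h2 z hz hz1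
  refine ⟨h0, fun h1 => ?_, fun h1 => ?_⟩
  · by_cases hM : m1 (A + D).charpoly = 1
    · exact Or.inl hM
    right
    refine aux _ (Matrix.charpoly_monic _) hM fun z hz hz1 => ?_
    refine (h0 z 1 hz1).2 ?_ (no_root_of_one _ (Matrix.charpoly_monic _) h1 z hz1)
    rw [pow_one]
    exact dvd_iff_isRoot.mpr hz
  · by_cases hM : m1 A.charpoly = 1
    · exact Or.inl hM
    right
    refine aux _ (Matrix.charpoly_monic _) hM fun z hz hz1 => ?_
    refine (h0 z 1 hz1).1 ?_ (no_root_of_one _ (Matrix.charpoly_monic _) h1 z hz1)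
    rw [pow_one]
    exact dvd_iff_isRoot.mpr hz

theorem mem_LL (P Q : ℤ[X]) (hP : P ≠ 0) (hQ : Q ≠ 0) (C : ℝ) (h : mx1 P Q ≤ C)
    (hd : ∀ d : ℤ[X], d ∣ P → d ∣ Q → m1 d = 1) : m1 P ∈ LL C := by
  obtain ⟨A, B, d, h1, h2, h3, h4, h5, h6, h7, h8⟩ := reduce' P Q hP hQ C h
  have h9 : m1 d = 1 := hd d ⟨A, h1⟩ ⟨B, h2⟩
  rw [h7, h9, one_mul]
  exact Pool.Agent.W242.IM.m1_mem_LL A B h4 h5 h6 C h8

/-- the set of measures -/
def RM (L K : ℝ) (s : ℕ) : Set ℝ :=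
  {x : ℝ | ∃ (n : ℕ) (A D : Matrix (Fin n) (Fin n) ℤ) (G : Matrix (Fin n) (Fin n) ℂ), G.PosDef ∧
    (VolGrowth K A G ∨ VolGrowth K (A + D) G) ∧ (cx D).rank ≤ s ∧ NormLe L D G ∧
    (∀ d : ℤ[X], d ∣ A.charpoly → d ∣ (A + D).charpoly → m1 d = 1) ∧ x = m1 A.charpoly}

theorem RM_LL (L K : ℝ) (s : ℕ) : ∃ C : ℝ, RM L K s ⊆ LL C := by
  obtain ⟨C, hC⟩ := pair_bound L K s
  refine ⟨C, ?_⟩
  rintro x ⟨n, A, D, G, hG, hV, hs, hL, hd, rfl⟩
  refine mem_LL _ _ (Matrix.charpoly_monic _).ne_zero (Matrix.charpoly_monic (A + D)).ne_zero C ?_ hd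
  rcases hV with hV | hV
  · exact (hC n A D G hG hV hs hL).1
  · have h1 : (cx (-D)).rank ≤ s := by
      have : cx (-D) = - cx D := by
        unfold cx
        ext i j
        simp
      rw [this, rank_neg']
      exact hs
    have h2 : NormLe L (-D) G := by
      intro x
      have := hL x
      have h3 : cx (-D) = - cx D := by
        unfold cx
        ext i j
        simp
      rw [h3, Matrix.neg_mulVec, mulVec_neg, star_neg, neg_dotProduct, dotProduct_neg, neg_neg]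
      exact this
    have h3 := (hC n (A + D) (-D) G hG hV h1 h2).2
    rwa [add_neg_cancel_right] at h3

end Pool.Agent.Q188.RK
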